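import Pool.Agent.helper7.Nil.Algebra

set_option autoImplicit false

/-!
# Index functions of a nil algebra of countable dimension
-/

noncomputable section

namespace Pool.Agent.helper7.Nil

open Submodule
open scoped Cardinal

universe u v

variable {F : Type u} [Field F]

/-! ### A covering lemma over uncountable fields -/

/-- A property of sets in a vector space: a line that meets the set in infinitely many points
lies in it. -/
def LineClosed {V : Type v} [AddCommGroup V] [Module F V] (Z : Set V) : Prop :=
  ∀ a b : V, {t : F | a + t • b ∈ Z}.Infinite → ∀ t : F, a + t • b ∈ Z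

theorem cover_fin [Uncountable F] (k : ℕ) : ∀ (Z : ℕ → Set (Fin k → F)),
    (∀ n, LineClosed (F := F) (Z n)) → (∀ x, ∃ n, x ∈ Z n) → ∃ n, ∀ x, x ∈ Z n := by
  induction k with
  | zero =>
    intro Z _ hcov
    obtain ⟨n, hn⟩ := hcov 0
    exact ⟨n, fun x => by rwa [Subsingleton.elim x 0]⟩
  | succ k ih =>
    intro Z hline hcov
    have h1 : ∀ s : F, ∃ n, ∀ y : Fin k → F, (Fin.cons s y : Fin (k + 1) → F) ∈ Z n := by
      intro s
      refine ih (fun n => {y | (Fin.cons s y : Fin (k + 1) → F) ∈ Z n}) ?_ fun y => hcov _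
      intro n a b hinf t
      have hcons : ∀ t : F, (Fin.cons s (a + t • b) : Fin (k + 1) → F) =
          Fin.cons s a + t • (Fin.cons 0 b : Fin (k + 1) → F) := by
        intro t
        funext i
        refine Fin.cases ?_ (fun i => ?_) i
        · simp
        · simp
      change (Fin.cons s (a + t • b) : Fin (k + 1) → F) ∈ Z n
      rw [hcons]
      refine hline n _ _ ?_ t
      refine hinf.mono fun t ht => ?_
      change _ ∈ Z n
      rw [← hcons]
      exact ht
    choose n hn using h1
    -- some value of `n` is taken infinitely often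
    obtain ⟨m, hm⟩ : ∃ m, {s : F | n s = m}.Infinite := by
      by_contra hcon
      push Not at hcon
      have h2 : (Set.univ : Set F) = ⋃ m, {s : F | n s = m} := by
        ext s; simp
      have h3 : (Set.univ : Set F).Countable := by
        rw [h2]
        exact Set.countable_iUnion fun m => (hcon m).countable
      exact Set.not_countable_univ h3
    refine ⟨m, fun x => ?_⟩
    have hx : x = (Fin.cons 0 (Fin.tail x) : Fin (k + 1) → F) +
        x 0 • (Fin.cons 1 0 : Fin (k + 1) → F) := by
      funext i
      refine Fin.cases ?_ (fun i => ?_) i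
      · simp
      · simp [Fin.tail]
    rw [hx]
    refine hline m _ _ ?_ (x 0)
    refine hm.mono fun s hs => ?_
    have hs' : n s = m := hs
    change (Fin.cons 0 (Fin.tail x) : Fin (k + 1) → F) +
        s • (Fin.cons 1 0 : Fin (k + 1) → F) ∈ Z m
    have h4 : (Fin.cons 0 (Fin.tail x) : Fin (k + 1) → F) +
        s • (Fin.cons 1 0 : Fin (k + 1) → F) = Fin.cons s (Fin.tail x) := by
      funext i
      refine Fin.cases ?_ (fun i => ?_) i
      · simp
      · simp
    rw [h4, ← hs']
    exact hn s _

theorem cover_finite [Uncountable F] (V : Type v) [AddCommGroup V] [Module F V]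
    [Module.Finite F V] (Z : ℕ → Set V) (hline : ∀ n, LineClosed (F := F) (Z n))
    (hcov : ∀ x, ∃ n, x ∈ Z n) : ∃ n, ∀ x, x ∈ Z n := by
  let b := Module.finBasis F V
  let φ : V ≃ₗ[F] (Fin (Module.finrank F V) → F) := b.equivFun
  obtain ⟨n, hn⟩ := cover_fin (F := F) (Module.finrank F V) (fun n => {y | φ.symm y ∈ Z n})
    (fun n a c hinf t => by
      change φ.symm (a + t • c) ∈ Z n
      rw [map_add, map_smul]
      refine hline n _ _ ?_ t
      refine hinf.mono fun t ht => ?_
      have ht' : φ.symm (a + t • c) ∈ Z n := ht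
      rwa [map_add, map_smul] at ht')
    (fun y => hcov _)
  refine ⟨n, fun x => ?_⟩
  have := hn (φ x)
  simpa using this

/-! ### Polynomial functions with values in an algebra -/

section poly

variable (F) (A' : Type v) [NonUnitalRing A'] [Module F A']

/-- Polynomial functions `F → A'`. -/
def PolyFun : Submodule F (F → A') :=
  span F {g | ∃ (i : ℕ) (a : A'), g = fun t => t ^ i • a}

variable {F A'}

theorem polyFun_mono (i : ℕ) (a : A') : (fun t : F => t ^ i • a) ∈ PolyFun F A' :=
  subset_span ⟨i, a, rfl⟩

theorem polyFun_mul [IsScalarTower F A' A'] [SMulCommClass F A' A'] {g h : F → A'}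
    (hg : g ∈ PolyFun F A') (hh : h ∈ PolyFun F A') : g * h ∈ PolyFun F A' := by
  induction hg using Submodule.span_induction with
  | mem g hg =>
    obtain ⟨i, a, rfl⟩ := hg
    induction hh using Submodule.span_induction with
    | mem h hh =>
      obtain ⟨j, b, rfl⟩ := hh
      have : (fun t : F => t ^ i • a) * (fun t : F => t ^ j • b) =
          fun t => t ^ (i + j) • (a * b) := by
        funext t
        simp only [Pi.mul_apply]
        rw [smul_mul_smul_comm, pow_add]
      rw [this]
      exact polyFun_mono _ _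
    | zero => rw [mul_zero]; exact zero_mem _
    | add x y _ _ hx hy => rw [mul_add]; exact add_mem hx hy
    | smul c x _ hx =>
      have : (fun t : F => t ^ i • a) * (c • x) = c • ((fun t : F => t ^ i • a) * x) := by
        funext t
        simp only [Pi.mul_apply, Pi.smul_apply]
        rw [mul_smul_comm]
      rw [this]
      exact smul_mem _ c hx
  | zero => rw [zero_mul]; exact zero_mem _
  | add x y _ _ hx hy => rw [add_mul]; exact add_mem hx hy
  | smul c x _ hx =>
    have : (c • x) * h = c • (x * h) := by
      funext t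
      simp only [Pi.mul_apply, Pi.smul_apply]
      rw [smul_mul_assoc]
    rw [this]
    exact smul_mem _ c hx

theorem polyFun_dual {g : F → A'} (hg : g ∈ PolyFun F A') (ℓ : A' →ₗ[F] F) :
    ∃ p : Polynomial F, ∀ s, ℓ (g s) = p.eval s := by
  induction hg using Submodule.span_induction with
  | mem g hg =>
    obtain ⟨i, a, rfl⟩ := hg
    refine ⟨Polynomial.C (ℓ a) * Polynomial.X ^ i, fun s => ?_⟩
    rw [map_smul, smul_eq_mul, Polynomial.eval_mul, Polynomial.eval_C, Polynomial.eval_pow,
      Polynomial.eval_X, mul_comm]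
  | zero =>
    refine ⟨0, fun s => ?_⟩
    rw [Pi.zero_apply, map_zero, Polynomial.eval_zero]
  | add x y _ _ hx hy =>
    obtain ⟨p, hp⟩ := hx
    obtain ⟨q, hq⟩ := hy
    refine ⟨p + q, fun s => ?_⟩
    rw [Pi.add_apply, map_add, hp, hq, Polynomial.eval_add]
  | smul c x _ hx =>
    obtain ⟨p, hp⟩ := hx
    refine ⟨c • p, fun s => ?_⟩
    rw [Pi.smul_apply, map_smul, hp, Polynomial.eval_smul]

theorem polyFun_eq_zero {g : F → A'} (hg : g ∈ PolyFun F A') (hinf : {t | g t = 0}.Infinite) :
    ∀ t, g t = 0 := by
  intro t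
  rw [← Module.forall_dual_apply_eq_zero_iff F]
  intro ℓ
  obtain ⟨p, hp⟩ := polyFun_dual hg ℓ
  have h2 : p = 0 := by
    refine Polynomial.eq_zero_of_infinite_isRoot p (hinf.mono fun s hs => ?_)
    have hs' : g s = 0 := hs
    change p.eval s = 0
    rw [← hp, hs', map_zero]
  rw [hp, h2, Polynomial.eval_zero]

end poly

/-! ### Index functions -/

section index

variable (A' : Type v) [NonUnitalRing A'] [Module F A'] [IsScalarTower F A' A']
  [SMulCommClass F A' A']

/-- The iterated product is a polynomial function along a line. -/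
theorem iter_mem_polyFun {g : F → A'} (hg : g ∈ PolyFun F A') (n : ℕ) :
    (fun t => (fun z : A' => g t * z)^[n] (g t)) ∈ PolyFun F A' := by
  induction n with
  | zero => exact hg
  | succ n ih =>
    have : (fun t => (fun z : A' => g t * z)^[n + 1] (g t)) =
        g * fun t => (fun z : A' => g t * z)^[n] (g t) := by
      funext t
      rw [Function.iterate_succ_apply']
      rfl
    rw [this]
    exact polyFun_mul hg ih

theorem ev_mem_polyFun (x : F → Bool → A') (hx : ∀ c, (fun t => x t c) ∈ PolyFun F A')
    (c : Bool) (w : List Bool) : (fun t => ev (x t) c w) ∈ PolyFun F A' := by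
  induction w generalizing c with
  | nil => exact hx c
  | cons d w ih => exact polyFun_mul (hx c) (ih d)

/-- The case of a countable ground field. -/
theorem exists_index_countable [Countable F]
    (hnil : ∀ a : A', ∃ n : ℕ, (fun x : A' => a * x)^[n] a = 0)
    (hrank : Module.rank F A' ≤ ℵ₀) :
    ∃ R : ℕ → List Bool → ℕ, ∀ u : Bool → A', ∃ k, ∀ (c : Bool) (w : List Bool),
      (fun z : A' => ev u c w * z)^[R k (c :: w)] (ev u c w) = 0 := by
  classical
  let b := Module.Basis.ofVectorSpace F A'
  have hι : Countable (Module.Basis.ofVectorSpaceIndex F A') := by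
    rw [← Cardinal.mk_le_aleph0_iff, b.mk_eq_rank'']
    exact hrank
  have : Countable A' := b.repr.toEquiv.injective.countable
  obtain ⟨f, hf⟩ := exists_surjective_nat (Bool → A')
  choose n hn using hnil
  refine ⟨fun k l => match l with
    | [] => 0
    | c :: w => n (ev (f k) c w), fun u => ?_⟩
  obtain ⟨k, rfl⟩ := hf u
  exact ⟨k, fun c w => hn _⟩

/-- The case of an uncountable ground field. -/
theorem exists_index_uncountable [Uncountable F]
    (hnil : ∀ a : A', ∃ n : ℕ, (fun x : A' => a * x)^[n] a = 0)
    (hrank : Module.rank F A' ≤ ℵ₀) :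
    ∃ R : ℕ → List Bool → ℕ, ∀ u : Bool → A', ∃ k, ∀ (c : Bool) (w : List Bool),
      (fun z : A' => ev u c w * z)^[R k (c :: w)] (ev u c w) = 0 := by
  classical
  let b := Module.Basis.ofVectorSpace F A'
  have hι : Countable (Module.Basis.ofVectorSpaceIndex F A') := by
    rw [← Cardinal.mk_le_aleph0_iff, b.mk_eq_rank'']
    exact hrank
  obtain ⟨f, hf⟩ := ((Set.countable_range b).union (Set.countable_singleton (0 : A'))).exists_eq_range
    ⟨0, Or.inr rfl⟩
  have hspan : span F (Set.range f) = ⊤ := by
    rw [← hf, eq_top_iff, ← b.span_eq]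
    exact span_mono Set.subset_union_left
  -- the increasing family of finite-dimensional subspaces
  let B : ℕ → Submodule F A' := fun k => span F (Set.range fun i : Fin k => f i)
  have hBfin : ∀ k, Module.Finite F (B k) := fun k =>
    Module.Finite.span_of_finite F (Set.finite_range _)
  have hBmono : Monotone B := by
    intro k l hkl
    refine span_mono ?_
    rintro _ ⟨i, rfl⟩
    exact ⟨⟨i, i.2.trans_le hkl⟩, rfl⟩
  have hBcov : ∀ a : A', ∃ k, a ∈ B k := by
    intro a
    have ha : a ∈ span F (Set.range f) := by rw [hspan]; trivial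
    induction ha using Submodule.span_induction with
    | mem x hx =>
      obtain ⟨i, rfl⟩ := hx
      exact ⟨i + 1, subset_span ⟨⟨i, Nat.lt_succ_self i⟩, rfl⟩⟩
    | zero => exact ⟨0, zero_mem _⟩
    | add x y _ _ hx hy =>
      obtain ⟨k, hk⟩ := hx
      obtain ⟨l, hl⟩ := hy
      exact ⟨max k l, add_mem (hBmono (le_max_left k l) hk) (hBmono (le_max_right k l) hl)⟩
    | smul c x _ hx =>
      obtain ⟨k, hk⟩ := hx
      exact ⟨k, smul_mem _ c hk⟩
  -- uniform index on pairs from `B k`
  have huni : ∀ (k : ℕ) (c : Bool) (w : List Bool), ∃ n : ℕ, ∀ u : Bool → B k,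
      (fun z : A' => ev (fun d => (u d : A')) c w * z)^[n] (ev (fun d => (u d : A')) c w) = 0 := by
    intro k c w
    have := hBfin k
    refine cover_finite (F := F) (Bool → B k) (fun n => {u | (fun z : A' =>
      ev (fun d => (u d : A')) c w * z)^[n] (ev (fun d => (u d : A')) c w) = 0}) ?_ ?_
    · intro n a a' hinf t
      have hpoly : (fun t : F => (fun z : A' => ev (fun d => ((a + t • a') d : A')) c w * z)^[n]
          (ev (fun d => ((a + t • a') d : A')) c w)) ∈ PolyFun F A' := by
        refine iter_mem_polyFun A' (g := fun t : F => ev (fun d => ((a + t • a') d : A')) c w) ?_ n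
        refine ev_mem_polyFun A' (fun t d => ((a + t • a') d : A')) (fun d => ?_) c w
        have : (fun t : F => (((a + t • a') d : B k) : A')) =
            (fun t : F => t ^ 0 • (a d : A')) + fun t : F => t ^ 1 • (a' d : A') := by
          funext t
          simp
        rw [this]
        exact add_mem (polyFun_mono _ _) (polyFun_mono _ _)
      exact polyFun_eq_zero hpoly hinf t
    · intro u
      exact hnil _
  choose n hn using huni
  refine ⟨fun k l => match l with
    | [] => 0
    | c :: w => n k c w, fun u => ?_⟩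
  obtain ⟨k₁, hk₁⟩ := hBcov (u false)
  obtain ⟨k₂, hk₂⟩ := hBcov (u true)
  refine ⟨max k₁ k₂, fun c w => ?_⟩
  have hu : ∀ d, u d ∈ B (max k₁ k₂) := by
    intro d
    cases d
    · exact hBmono (le_max_left _ _) hk₁
    · exact hBmono (le_max_right _ _) hk₂
  exact hn (max k₁ k₂) c w fun d => ⟨u d, hu d⟩

theorem exists_index
    (hnil : ∀ a : A', ∃ n : ℕ, (fun x : A' => a * x)^[n] a = 0)
    (hrank : Module.rank F A' ≤ ℵ₀) :
    ∃ R : ℕ → List Bool → ℕ, ∀ u : Bool → A', ∃ k, ∀ (c : Bool) (w : List Bool),
      (fun z : A' => ev u c w * z)^[R k (c :: w)] (ev u c w) = 0 := by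
  by_cases h : Countable F
  · exact exists_index_countable A' hnil hrank
  · have : Uncountable F := not_countable_iff.1 h
    exact exists_index_uncountable A' hnil hrank

end index

/-- **Main theorem.** For every field `F` and every nil algebra `A'` of countable dimension there
is a nil algebra of countable dimension that is not a homomorphic image of `A'`. -/
theorem main (F : Type u) [Field F] (A' : Type v) [NonUnitalRing A'] [Module F A']
    [IsScalarTower F A' A'] [SMulCommClass F A' A']
    (hnil : ∀ a : A', ∃ n : ℕ, (fun x : A' => a * x)^[n] a = 0)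
    (hrank : Module.rank F A' ≤ ℵ₀) :
    ∃ (B : Type u) (_ : NonUnitalRing B) (_ : Module F B) (_ : IsScalarTower F B B)
      (_ : SMulCommClass F B B),
      (∀ b : B, ∃ n : ℕ, (fun x : B => b * x)^[n] b = 0) ∧ Module.rank F B ≤ ℵ₀ ∧
      ¬ ∃ f : A' →ₙₐ[F] B, Function.Surjective f := by
  obtain ⟨R, hR⟩ := exists_index A' hnil hrank
  obtain ⟨B, i1, i2, i3, i4, hB1, hB2, x, hx⟩ := exists_nil_algebra F R
  refine ⟨B, i1, i2, i3, i4, hB1, hB2, ?_⟩
  rintro ⟨f, hf⟩
  choose u hu using fun c => hf (x c)
  obtain ⟨k, hk⟩ := hR u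
  obtain ⟨c, w, hcw⟩ := hx k
  apply hcw
  have h1 := congrArg f (hk c w)
  rw [map_iter f (map_mul f), map_ev f (map_mul f), map_zero] at h1
  have h2 : (fun d => f (u d)) = x := funext hu
  rwa [h2] at h1

end Pool.Agent.helper7.Nil
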