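import Pool.Agent.helper7.Nil.Step

set_option autoImplicit false

/-!
# The nil algebra with large nil indices
-/

noncomputable section

namespace Pool.Agent.helper7.Nil

open Submodule
open scoped Cardinal

universe u

variable {F : Type u} [Field F]

theorem Dead.comp {Φ Ψ : A F →ₗ[F] A F} {x : A F} (h : Dead Φ x) : Dead (Ψ ∘ₗ Φ) x := by
  intro a y
  rw [LinearMap.comp_apply, h, map_zero]

/-- The sequence of stages for the given index functions `R`. -/
def seq (F : Type u) [Field F] (R : ℕ → List Bool → ℕ) : ℕ → Stage F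
  | 0 => Stage.init
  | j + 1 => Classical.choose (step (seq F R j) (j + 1) (R j ((seq F R j).X false) + 1)
      (Nat.succ_pos _))

theorem seq_spec (R : ℕ → List Bool → ℕ) (j : ℕ) :
    (∃ Ψ : A F →ₗ[F] A F, (seq F R (j + 1)).Φ = Ψ ∘ₗ (seq F R j).Φ) ∧
      (∀ v ∈ V F (j + 1), ∃ n, Dead (seq F R (j + 1)).Φ (v ^ n)) ∧
      ∃ t, (seq F R (j + 1)).X false =
        (List.replicate (R j ((seq F R j).X false) + 1) ((seq F R j).X false)).flatten ++ t :=
  Classical.choose_spec (step (seq F R j) (j + 1) (R j ((seq F R j).X false) + 1)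
      (Nat.succ_pos _))

theorem dead_mono (R : ℕ → List Bool → ℕ) {i j : ℕ} (hij : i ≤ j) {x : A F}
    (h : Dead (seq F R i).Φ x) : Dead (seq F R j).Φ x := by
  induction j, hij using Nat.le_induction with
  | base => exact h
  | succ j _ ih =>
    obtain ⟨Ψ, hΨ⟩ := (seq_spec (F := F) R j).1
    rw [hΨ]
    exact ih.comp

theorem prefix_step (R : ℕ → List Bool → ℕ) (j : ℕ) :
    ∃ t, (seq F R (j + 1)).X false = (seq F R j).X false ++ t := by
  obtain ⟨t, ht⟩ := (seq_spec (F := F) R j).2.2
  rw [ht, List.replicate_succ, List.flatten_cons]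
  exact ⟨_, List.append_assoc _ _ _⟩

theorem prefix_le (R : ℕ → List Bool → ℕ) {i j : ℕ} (hij : i ≤ j) :
    ∃ t, (seq F R j).X false = (seq F R i).X false ++ t := by
  induction j, hij using Nat.le_induction with
  | base => exact ⟨[], (List.append_nil _).symm⟩
  | succ j _ ih =>
    obtain ⟨t, ht⟩ := ih
    obtain ⟨t', ht'⟩ := prefix_step (F := F) R j
    exact ⟨t ++ t', by rw [ht', ht, List.append_assoc]⟩

/-- The ideal. -/
def E (F : Type u) [Field F] (R : ℕ → List Bool → ℕ) : Ideal (A F) where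
  carrier := {x | ∃ j, Dead (seq F R j).Φ x}
  add_mem' := by
    rintro x y ⟨i, hi⟩ ⟨j, hj⟩
    refine ⟨max i j, fun a z => ?_⟩
    rw [mul_add, add_mul, map_add, dead_mono R (le_max_left i j) hi a z,
      dead_mono R (le_max_right i j) hj a z, add_zero]
  zero_mem' := ⟨0, fun a z => by rw [mul_zero, zero_mul, map_zero]⟩
  smul_mem' := by
    rintro c x ⟨j, hj⟩
    refine ⟨j, fun a z => ?_⟩
    rw [smul_eq_mul, ← mul_assoc]
    exact hj (a * c) z

instance E_twoSided (R : ℕ → List Bool → ℕ) : (E F R).IsTwoSided :=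
  ⟨fun {x} b hx => by
    obtain ⟨j, hj⟩ := hx
    refine ⟨j, fun a z => ?_⟩
    rw [← mul_assoc, mul_assoc (a * x) b z]
    exact hj a (b * z)⟩

theorem mem_E {R : ℕ → List Bool → ℕ} {x : A F} : x ∈ E F R ↔ ∃ j, Dead (seq F R j).Φ x :=
  Iff.rfl

/-- Powers of words. -/
theorem e_pow (w : List Bool) (n : ℕ) : (e w : A F) ^ n = e (List.replicate n w).flatten := by
  induction n with
  | zero => rw [pow_zero, List.replicate_zero, List.flatten_nil, e_nil]
  | succ n ih => rw [pow_succ', ih, List.replicate_succ, List.flatten_cons, e_append]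

/-- Some prescribed power of the word `X false` of stage `j` is not in the ideal. -/
theorem word_pow_notMem (R : ℕ → List Bool → ℕ) (j : ℕ) :
    (e ((seq F R j).X false) : A F) ^ (R j ((seq F R j).X false) + 1) ∉ E F R := by
  rintro ⟨i, hi⟩
  have hi' := dead_mono R (le_max_left i (j + 1)) hi
  obtain ⟨t, ht⟩ := (seq_spec (F := F) R j).2.2
  obtain ⟨t', ht'⟩ := prefix_le (F := F) R (le_max_right i (j + 1))
  have h1 := hi' 1 (e (t ++ t'))
  rw [one_mul, e_pow, ← e_append, ← List.append_assoc, ← ht, ← ht',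
    (seq F R (max i (j + 1))).val] at h1
  exact e_ne_zero _ h1

/-- The elements of `V F D` are nilpotent modulo the ideal. -/
theorem pow_mem_E (R : ℕ → List Bool → ℕ) (D : ℕ) {v : A F} (hv : v ∈ V F D) :
    ∃ n, v ^ n ∈ E F R := by
  have hv' : v ∈ V F (D + 1) := part_mono (fun n hn => ⟨hn.1, by omega⟩) hv
  obtain ⟨n, hn⟩ := (seq_spec (F := F) R D).2.1 v hv'
  exact ⟨n, D + 1, hn⟩

/-- The quotient algebra (unital). -/
abbrev Q (F : Type u) [Field F] (R : ℕ → List Bool → ℕ) : Type u := A F ⧸ E F R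

/-- The quotient map. -/
def mkQ (F : Type u) [Field F] (R : ℕ → List Bool → ℕ) : A F →ₐ[F] Q F R :=
  Ideal.Quotient.mkₐ F (E F R)

theorem mkQ_surjective (R : ℕ → List Bool → ℕ) : Function.Surjective (mkQ F R) :=
  Ideal.Quotient.mkₐ_surjective F (E F R)

theorem mkQ_eq_zero {R : ℕ → List Bool → ℕ} {x : A F} : mkQ F R x = 0 ↔ x ∈ E F R :=
  Ideal.Quotient.eq_zero_iff_mem

/-- The nil algebra: the non-unital subalgebra generated by the two letters. -/
def N (F : Type u) [Field F] (R : ℕ → List Bool → ℕ) : NonUnitalSubalgebra F (Q F R) :=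
  NonUnitalAlgebra.adjoin F (Set.range fun c : Bool => mkQ F R (e [c]))

theorem exists_rep (R : ℕ → List Bool → ℕ) {z : Q F R} (hz : z ∈ N F R) :
    ∃ D, ∃ v ∈ V F D, mkQ F R v = z := by
  induction hz using NonUnitalAlgebra.adjoin_induction with
  | mem x hx =>
    obtain ⟨c, rfl⟩ := hx
    exact ⟨1, e [c], e_mem_part ⟨le_rfl, le_rfl⟩, rfl⟩
  | add x y _ _ hx hy =>
    obtain ⟨D, v, hv, rfl⟩ := hx
    obtain ⟨D', v', hv', rfl⟩ := hy
    refine ⟨max D D', v + v', add_mem ?_ ?_, map_add _ _ _⟩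
    · exact part_mono (fun n hn => ⟨hn.1, hn.2.trans (le_max_left _ _)⟩) hv
    · exact part_mono (fun n hn => ⟨hn.1, hn.2.trans (le_max_right _ _)⟩) hv'
  | zero => exact ⟨0, 0, zero_mem _, map_zero _⟩
  | mul x y _ _ hx hy =>
    obtain ⟨D, v, hv, rfl⟩ := hx
    obtain ⟨D', v', hv', rfl⟩ := hy
    refine ⟨D + D', v * v', ?_, map_mul _ _ _⟩
    exact mul_mem_part (fun a b ha hb => ⟨by have := ha.1; omega, Nat.add_le_add ha.2 hb.2⟩)
      hv hv'
  | smul c x _ hx =>
    obtain ⟨D, v, hv, rfl⟩ := hx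
    exact ⟨D, c • v, smul_mem _ c hv, map_smul _ _ _⟩

theorem rank_N_le (R : ℕ → List Bool → ℕ) : Module.rank F (N F R) ≤ ℵ₀ := by
  have h1 : Module.rank F (A F) ≤ ℵ₀ := by
    have h := rank_span_le (R := F) (Set.range (e : List Bool → A F))
    rw [span_e, rank_top] at h
    exact h.trans (Set.countable_range _).le_aleph0
  have h2 : Module.rank F (Q F R) ≤ Module.rank F (A F) :=
    LinearMap.rank_le_of_surjective (mkQ F R).toLinearMap (mkQ_surjective R)
  have h3 : Module.rank F (N F R) ≤ Module.rank F (Q F R) :=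
    Submodule.rank_le (N F R).toSubmodule
  exact h3.trans (h2.trans h1)

/-- Evaluation of a nonempty word `c :: w` in a (non-unital) ring. -/
def ev {M : Type*} [Mul M] (x : Bool → M) : Bool → List Bool → M
  | c, [] => x c
  | c, d :: w => x c * ev x d w

theorem map_ev {M M' : Type*} [Mul M] [Mul M'] (f : M → M') (hf : ∀ a b, f (a * b) = f a * f b)
    (x : Bool → M) (c : Bool) (w : List Bool) : f (ev x c w) = ev (fun d => f (x d)) c w := by
  induction w generalizing c with
  | nil => rfl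
  | cons d w ih => rw [ev, hf, ih]; rfl

theorem map_iter {M M' : Type*} [Mul M] [Mul M'] (f : M → M')
    (hf : ∀ a b, f (a * b) = f a * f b) (a : M) (n : ℕ) :
    f ((fun x : M => a * x)^[n] a) = (fun x : M' => f a * x)^[n] (f a) := by
  induction n with
  | zero => rfl
  | succ n ih => rw [Function.iterate_succ_apply', Function.iterate_succ_apply', hf, ih]

theorem iter_eq_pow {M : Type*} [Monoid M] (a : M) (n : ℕ) :
    (fun x : M => a * x)^[n] a = a ^ (n + 1) := by
  induction n with
  | zero => simp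
  | succ n ih => rw [Function.iterate_succ_apply', ih, ← pow_succ']

theorem ev_e (c : Bool) (w : List Bool) : ev (fun d : Bool => (e [d] : A F)) c w = e (c :: w) := by
  induction w generalizing c with
  | nil => rfl
  | cons d w ih => rw [ev, ih, ← e_append]; rfl

/-- **Main construction.** For any sequence of index functions on words there is a 2-generated
nil algebra in which none of the functions bounds the nil indices of the words in the
generators. -/
theorem exists_nil_algebra (F : Type u) [Field F] (R : ℕ → List Bool → ℕ) :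
    ∃ (B : Type u) (_ : NonUnitalRing B) (_ : Module F B) (_ : IsScalarTower F B B)
      (_ : SMulCommClass F B B),
      (∀ b : B, ∃ n : ℕ, (fun x : B => b * x)^[n] b = 0) ∧ Module.rank F B ≤ ℵ₀ ∧
      ∃ x : Bool → B, ∀ k : ℕ, ∃ (c : Bool) (w : List Bool),
        (fun z : B => ev x c w * z)^[R k (c :: w)] (ev x c w) ≠ 0 := by
  refine ⟨N F R, inferInstance, inferInstance, inferInstance, inferInstance, ?_, rank_N_le R, ?_⟩
  · rintro ⟨z, hz⟩
    obtain ⟨D, v, hv, rfl⟩ := exists_rep R hz
    obtain ⟨n, hn⟩ := pow_mem_E R D hv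
    refine ⟨n, Subtype.ext ?_⟩
    rw [map_iter (fun x : N F R => (x : Q F R)) (fun _ _ => rfl), iter_eq_pow, pow_succ]
    change mkQ F R v ^ n * mkQ F R v = 0
    rw [← map_pow, mkQ_eq_zero.2 hn, zero_mul]
  · let x : Bool → N F R := fun c =>
      ⟨mkQ F R (e [c]), NonUnitalAlgebra.subset_adjoin F ⟨c, rfl⟩⟩
    refine ⟨x, fun k => ?_⟩
    have hev : ∀ c w, ((ev x c w : N F R) : Q F R) = mkQ F R (e (c :: w)) := by
      intro c w
      rw [map_ev (fun x : N F R => (x : Q F R)) (fun _ _ => rfl), ← ev_e,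
        map_ev (mkQ F R) (map_mul (mkQ F R))]
    have hlen := (seq F R k).len false
    have hpos := (seq F R k).block.pos
    obtain ⟨c, w, hcw⟩ : ∃ c w, (seq F R k).X false = c :: w := by
      cases h : (seq F R k).X false with
      | nil => rw [h] at hlen; simp at hlen; omega
      | cons c w => exact ⟨c, w, rfl⟩
    refine ⟨c, w, fun hzero => ?_⟩
    have h1 := congrArg (fun y : N F R => (y : Q F R)) hzero
    rw [map_iter (fun x : N F R => (x : Q F R)) (fun _ _ => rfl), iter_eq_pow, hev, ← map_pow] at h1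
    have h2 : mkQ F R (e (c :: w) ^ (R k (c :: w) + 1)) = 0 := h1
    rw [mkQ_eq_zero, ← hcw] at h2
    exact word_pow_notMem R k h2

end Pool.Agent.helper7.Nil
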