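import Pool.Agent.helper7.Nil.Words

set_option autoImplicit false

/-!
# Block maps and the nil lemma
-/

noncomputable section

namespace Pool.Agent.helper7.Nil

open Submodule

universe u

variable {F : Type u} [Field F]

/-- A block map of length `L`: words are cut in blocks of length `L`, each full block is replaced
by an element of degree one; words whose length is not a multiple of `L` are sent to zero. -/
structure Block (L : ℕ) (Φ : A F →ₗ[F] A F) : Prop where
  pos : 0 < L
  one : Φ (e []) = 1
  mul : ∀ u v : List Bool, u.length = L → Φ (e (u ++ v)) = Φ (e u) * Φ (e v)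
  zero : ∀ u : List Bool, ¬ L ∣ u.length → Φ (e u) = 0
  deg : ∀ u : List Bool, u.length = L → Φ (e u) ∈ part F (· = 1)

/-- Multiplicativity for a left factor of degree `L`. -/
theorem Block.map_mul {L : ℕ} {Φ : A F →ₗ[F] A F} (h : Block L Φ) {a : A F}
    (ha : a ∈ part F (· = L)) (b : A F) : Φ (a * b) = Φ a * Φ b := by
  refine part_induction (Q := fun a => Φ (a * b) = Φ a * Φ b) ha ?_ ?_ ?_ ?_
  · intro w hw
    refine A_induction (P := fun b => Φ (e w * b) = Φ (e w) * Φ b) b ?_ ?_ ?_ ?_
    · intro v
      rw [← e_append, h.mul w v hw]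
    · simp
    · intro x y hx hy
      rw [mul_add, map_add, hx, hy, map_add, mul_add]
    · intro c x hx
      rw [mul_smul_comm, map_smul, hx, map_smul, mul_smul_comm]
  · simp
  · intro x y hx hy
    rw [add_mul, map_add, hx, hy, map_add, add_mul]
  · intro c x hx
    rw [smul_mul_assoc, map_smul, hx, map_smul, smul_mul_assoc]

/-- The image of a word of length `s * L` has degree `s`. -/
theorem Block.map_word {L : ℕ} {Φ : A F →ₗ[F] A F} (h : Block L Φ) (s : ℕ) :
    ∀ u : List Bool, u.length = s * L → Φ (e u) ∈ part F (· = s) := by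
  induction s with
  | zero =>
    intro u hu
    have : u = [] := List.length_eq_zero_iff.1 (by simpa using hu)
    rw [this, h.one, ← e_nil]
    exact e_mem_part rfl
  | succ s ih =>
    intro u hu
    have hu' : u.length = s * L + L := by rw [hu]; ring
    have h1 : (u.take L).length = L := by rw [List.length_take]; omega
    have h2 : (u.drop L).length = s * L := by rw [List.length_drop]; omega
    rw [← List.take_append_drop L u, h.mul _ _ h1]
    exact mul_mem_part (fun a b ha hb => by
      have ha' : a = 1 := ha
      have hb' : b = s := hb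
      rw [ha', hb']; omega) (h.deg _ h1) (ih _ h2)

/-- The image of an element of degree `s * L` has degree `s`. -/
theorem Block.map_part {L : ℕ} {Φ : A F →ₗ[F] A F} (h : Block L Φ) {s : ℕ} {a : A F}
    (ha : a ∈ part F (· = s * L)) : Φ a ∈ part F (· = s) := by
  refine part_induction (Q := fun a => Φ a ∈ part F (· = s)) ha ?_ ?_ ?_ ?_
  · intro w hw; exact h.map_word s w hw
  · rw [map_zero]; exact zero_mem _
  · intro x y hx hy; rw [map_add]; exact add_mem hx hy
  · intro c x hx; rw [map_smul]; exact smul_mem _ c hx

/-- Composition of block maps. -/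
theorem Block.comp {L m : ℕ} {Φ Ψ : A F →ₗ[F] A F} (h : Block L Φ) (h' : Block m Ψ) :
    Block (m * L) (Ψ ∘ₗ Φ) where
  pos := Nat.mul_pos h'.pos h.pos
  one := by
    rw [LinearMap.comp_apply, h.one]
    have := h'.one
    rwa [e_nil] at this
  mul := by
    have key : ∀ s : ℕ, ∀ u v : List Bool, u.length = s * L →
        Φ (e (u ++ v)) = Φ (e u) * Φ (e v) := by
      intro s
      induction s with
      | zero =>
        intro u v hu
        have : u = [] := List.length_eq_zero_iff.1 (by simpa using hu)
        rw [this, h.one, List.nil_append, one_mul]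
      | succ s ih =>
        intro u v hu
        have hu' : u.length = s * L + L := by rw [hu]; ring
        have h1 : (u.take L).length = L := by rw [List.length_take]; omega
        have h2 : (u.drop L).length = s * L := by rw [List.length_drop]; omega
        have h3 : u ++ v = u.take L ++ (u.drop L ++ v) := by
          rw [← List.append_assoc, List.take_append_drop]
        rw [h3, h.mul _ _ h1, ih _ _ h2, ← mul_assoc, ← h.mul _ _ h1, List.take_append_drop]
    intro u v hu
    rw [LinearMap.comp_apply, LinearMap.comp_apply, LinearMap.comp_apply, key m u v hu]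
    exact h'.map_mul (h.map_word m u hu) _
  zero := by
    intro u hu
    rw [LinearMap.comp_apply]
    by_cases hL : L ∣ u.length
    · obtain ⟨s, hs⟩ := hL
      have hs' : u.length = s * L := by rw [hs, mul_comm]
      have h1 := h.map_word s u hs'
      refine part_induction (Q := fun a => Ψ a = 0) h1 ?_ ?_ ?_ ?_
      · intro w hw
        have hw' : w.length = s := hw
        refine h'.zero w fun hd => hu ?_
        rw [hw'] at hd
        rw [hs']
        exact Nat.mul_dvd_mul_right hd L
      · rw [map_zero]
      · intro x y hx hy; rw [map_add, hx, hy, add_zero]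
      · intro c x hx; rw [map_smul, hx, smul_zero]
    · rw [h.zero u hL, map_zero]
  deg := by
    intro u hu
    rw [LinearMap.comp_apply]
    have h1 := h.map_word m u hu
    refine h'.map_part (s := 1) ?_
    rwa [one_mul]

/-- The identity is a block map of length one. -/
theorem Block.id : Block (F := F) 1 LinearMap.id where
  pos := one_pos
  one := e_nil
  mul := fun u v _ => e_append u v
  zero := fun _ hu => absurd (one_dvd _) hu
  deg := fun _ hu => e_mem_part hu

/-- Values of a block map with given values `g` on the words of length `m`. -/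
def blkAux (m : ℕ) (g : List Bool → A F) : ℕ → List Bool → A F
  | 0, _ => 1
  | s + 1, w => g (w.take m) * blkAux m g s (w.drop m)

/-- Values of a block map with given values `g` on the words of length `m`. -/
def blk (m : ℕ) (g : List Bool → A F) (w : List Bool) : A F :=
  if m ∣ w.length then blkAux m g (w.length / m) w else 0

/-- Existence of block maps. -/
theorem exists_block (m : ℕ) (hm : 0 < m) (g : List Bool → A F)
    (hg : ∀ w : List Bool, w.length = m → g w ∈ part F (· = 1)) :
    ∃ Ψ : A F →ₗ[F] A F, Block m Ψ ∧ ∀ w : List Bool, w.length = m → Ψ (e w) = g w := by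
  let Ψ : A F →ₗ[F] A F := (wb F).constr F (blk m g)
  have hΨ : ∀ w, Ψ (e w) = blk m g w := by
    intro w
    simp only [Ψ, e]
    rw [Module.Basis.constr_basis]
  have hone : blk m g [] = 1 := by
    rw [blk, if_pos (by simp)]
    simp [blkAux]
  have hmul : ∀ u v : List Bool, u.length = m → blk m g (u ++ v) = g u * blk m g v := by
    intro u v hu
    rw [blk, blk, List.length_append, hu]
    by_cases hd : m ∣ v.length
    · rw [if_pos hd, if_pos ((Nat.dvd_add_right (dvd_refl m)).2 hd), Nat.add_div_left _ hm]
      rw [blkAux, List.take_left' hu, List.drop_left' hu]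
    · rw [if_neg hd, if_neg (fun h => hd ((Nat.dvd_add_right (dvd_refl m)).1 h)), mul_zero]
  have hval : ∀ u : List Bool, u.length = m → blk m g u = g u := by
    intro u hu
    have := hmul u [] hu
    rwa [List.append_nil, hone, mul_one] at this
  refine ⟨Ψ, ⟨hm, ?_, ?_, ?_, ?_⟩, ?_⟩
  · rw [hΨ, hone]
  · intro u v hu
    rw [hΨ, hΨ, hΨ, hmul u v hu, hval u hu]
  · intro u hu
    rw [hΨ, blk, if_neg hu]
  · intro u hu
    rw [hΨ, hval u hu]
    exact hg u hu
  · intro u hu
    rw [hΨ, hval u hu]

/-- The ideal attached to a linear map: all `x` with `Φ (a * x * y) = 0` for all `a`, `y`. -/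
def Dead (Φ : A F →ₗ[F] A F) (x : A F) : Prop := ∀ a y, Φ (a * x * y) = 0

/-- Right version. -/
def RDead (Φ : A F →ₗ[F] A F) (x : A F) : Prop := ∀ y, Φ (x * y) = 0

theorem RDead.add {Φ : A F →ₗ[F] A F} {x y : A F} (hx : RDead Φ x) (hy : RDead Φ y) :
    RDead Φ (x + y) := by
  intro z; rw [add_mul, map_add, hx, hy, add_zero]

theorem RDead.smul {Φ : A F →ₗ[F] A F} {x : A F} (c : F) (hx : RDead Φ x) :
    RDead Φ (c • x) := by
  intro z; rw [smul_mul_assoc, map_smul, hx, smul_zero]

theorem RDead.zero {Φ : A F →ₗ[F] A F} : RDead Φ (0 : A F) := by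
  intro z; rw [zero_mul, map_zero]

theorem RDead.mul_right {Φ : A F →ₗ[F] A F} {x : A F} (hx : RDead Φ x) (y : A F) :
    RDead Φ (x * y) := by
  intro z; rw [mul_assoc]; exact hx _

theorem RDead.sum {Φ : A F →ₗ[F] A F} {ι : Type*} (s : Finset ι) (f : ι → A F)
    (h : ∀ i ∈ s, RDead Φ (f i)) : RDead Φ (∑ i ∈ s, f i) := by
  classical
  induction s using Finset.induction_on with
  | empty => rw [Finset.sum_empty]; exact RDead.zero
  | insert a s ha ih =>
    rw [Finset.sum_insert ha]
    exact (h a (Finset.mem_insert_self a s)).add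
      (ih fun i hi => h i (Finset.mem_insert_of_mem hi))

theorem Block.rdead_mul {L : ℕ} {Φ : A F →ₗ[F] A F} (h : Block L Φ) {a b : A F}
    (ha : a ∈ part F (· = L)) (hb : RDead Φ b) : RDead Φ (a * b) := by
  intro y
  rw [mul_assoc, h.map_mul ha, hb, mul_zero]

theorem Block.rdead_of_map_eq_zero {L : ℕ} {Φ : A F →ₗ[F] A F} (h : Block L Φ) {a : A F}
    (ha : a ∈ part F (· = L)) (ha0 : Φ a = 0) : RDead Φ a := by
  intro y
  rw [h.map_mul ha, ha0, zero_mul]

/-- The nil condition on the level of the block map. -/
def NilCond (L D : ℕ) (Φ : A F →ₗ[F] A F) (v : A F) : Prop :=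
  ∀ (s t : List Bool), s.length ≤ D → t.length ≤ D → ∀ l : ℕ,
    Φ (proj (· = L) (e s * v ^ l * e t)) = 0

/-- First telescoping step. -/
theorem nil_aux {L D : ℕ} {Φ : A F →ₗ[F] A F} (h : Block L Φ) {v : A F} (hv : v ∈ V F D)
    (hnil : NilCond L D Φ v) (s : List Bool) (hs : s.length ≤ D) (hsL : s.length < L) (k r : ℕ) :
    RDead Φ (e s * v ^ (k + r) - proj (· < L) (e s * v ^ k) * v ^ r) := by
  induction k generalizing r with
  | zero =>
    rw [pow_zero, mul_one, proj_e, if_pos hsL, zero_add, sub_self]
    exact RDead.zero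
  | succ k ih =>
    have h1 := ih (r + 1)
    have key : ∀ v' ∈ V F D, RDead Φ (proj (· < L) (e s * v ^ k) * v' -
        proj (· < L) (e s * v ^ k * v')) := by
      intro v' hv'
      refine part_induction (Q := fun v' => RDead Φ (proj (· < L) (e s * v ^ k) * v' -
        proj (· < L) (e s * v ^ k * v'))) hv' ?_ ?_ ?_ ?_
      · intro u hu
        rw [crossing, add_sub_cancel_left]
        refine RDead.sum _ _ fun i hi => ?_
        refine RDead.mul_right ?_ _
        refine h.rdead_of_map_eq_zero (proj_mem_part _ _) ?_
        refine hnil s _ hs ?_ k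
        rw [List.length_take]
        have := hu.2
        omega
      · simp only [mul_zero, map_zero, sub_zero]; exact RDead.zero
      · intro x y hx hy
        have : proj (· < L) (e s * v ^ k) * (x + y) - proj (· < L) (e s * v ^ k * (x + y)) =
            (proj (· < L) (e s * v ^ k) * x - proj (· < L) (e s * v ^ k * x)) +
            (proj (· < L) (e s * v ^ k) * y - proj (· < L) (e s * v ^ k * y)) := by
          rw [mul_add, mul_add, map_add]; abel
        rw [this]; exact hx.add hy
      · intro c x hx
        have : proj (· < L) (e s * v ^ k) * (c • x) - proj (· < L) (e s * v ^ k * (c • x)) =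
            c • (proj (· < L) (e s * v ^ k) * x - proj (· < L) (e s * v ^ k * x)) := by
          rw [mul_smul_comm, mul_smul_comm, map_smul, smul_sub]
        rw [this]; exact hx.smul c
    have h2 : e s * v ^ (k + 1 + r) - proj (· < L) (e s * v ^ (k + 1)) * v ^ r =
        (e s * v ^ (k + (r + 1)) - proj (· < L) (e s * v ^ k) * v ^ (r + 1)) +
        (proj (· < L) (e s * v ^ k) * v - proj (· < L) (e s * v ^ k * v)) * v ^ r := by
      rw [show k + 1 + r = k + (r + 1) by ring, pow_succ' v r, sub_mul, pow_succ v k,
        mul_assoc (proj (· < L) (e s * v ^ k)) v, mul_assoc (e s) (v ^ k) v]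
      abel
    rw [h2]
    exact h1.add ((key v hv).mul_right _)

theorem proj_lt_eq_zero {L D : ℕ} {v : A F} (hv : v ∈ V F D) (s : List Bool) (k : ℕ)
    (hk : L ≤ k) : proj (· < L) (e s * v ^ k) = 0 := by
  refine proj_eq_zero (Q := fun n => k ≤ n) (fun n hn => not_lt.2 (hk.trans hn)) ?_
  have h1 : (e s : A F) ∈ part F (fun n => 0 ≤ n) := e_mem_part (Nat.zero_le _)
  exact mul_mem_part (fun a b _ hb => le_add_left hb) h1 (pow_mem_part hv k)

/-- Short overlaps. -/
theorem nil_short {L D : ℕ} {Φ : A F →ₗ[F] A F} (h : Block L Φ) {v : A F} (hv : v ∈ V F D)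
    (hnil : NilCond L D Φ v) (s : List Bool) (hs : s.length ≤ D) (hsL : s.length < L) (n : ℕ)
    (hn : L ≤ n) : RDead Φ (e s * v ^ n) := by
  have h1 := nil_aux h hv hnil s hs hsL n 0
  rwa [add_zero, proj_lt_eq_zero hv s n hn, zero_mul, sub_zero] at h1

/-- Second telescoping. -/
theorem nil_aux2 {L D : ℕ} {Φ : A F →ₗ[F] A F} (h : Block L Φ) (hDL : D ≤ L) {v : A F}
    (hv : v ∈ V F D) (hnil : NilCond L D Φ v) (p : List Bool) (hp : p.length < L) (k r : ℕ)
    (hr : L ≤ r) : RDead Φ (e p * v ^ (k + r) - proj (· < L) (e p * v ^ k) * v ^ r) := by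
  induction k generalizing r with
  | zero =>
    rw [pow_zero, mul_one, proj_e, if_pos hp, zero_add, sub_self]
    exact RDead.zero
  | succ k ih =>
    have h1 := ih (r + 1) (by omega)
    have key : ∀ v' ∈ V F D, RDead Φ ((proj (· < L) (e p * v ^ k) * v' -
        proj (· < L) (e p * v ^ k * v')) * v ^ r) := by
      intro v' hv'
      refine part_induction (Q := fun v' => RDead Φ ((proj (· < L) (e p * v ^ k) * v' -
        proj (· < L) (e p * v ^ k * v')) * v ^ r)) hv' ?_ ?_ ?_ ?_
      · intro u hu
        rw [crossing, add_sub_cancel_left, Finset.sum_mul]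
        refine RDead.sum _ _ fun i hi => ?_
        rw [mul_assoc]
        refine h.rdead_mul (proj_mem_part _ _) ?_
        have h3 : (u.drop (i + 1)).length ≤ D - 1 := by
          rw [List.length_drop]
          have := hu.2
          omega
        have h4 : 1 ≤ D := hu.1.trans hu.2
        exact nil_short h hv hnil _ (by omega) (by omega) r hr
      · simp only [mul_zero, map_zero, sub_zero, zero_mul]; exact RDead.zero
      · intro x y hx hy
        have : (proj (· < L) (e p * v ^ k) * (x + y) - proj (· < L) (e p * v ^ k * (x + y))) *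
              v ^ r =
            (proj (· < L) (e p * v ^ k) * x - proj (· < L) (e p * v ^ k * x)) * v ^ r +
            (proj (· < L) (e p * v ^ k) * y - proj (· < L) (e p * v ^ k * y)) * v ^ r := by
          rw [mul_add, mul_add, map_add, ← add_mul]; congr 1; abel
        rw [this]; exact hx.add hy
      · intro c x hx
        have : (proj (· < L) (e p * v ^ k) * (c • x) - proj (· < L) (e p * v ^ k * (c • x))) *
              v ^ r =
            c • ((proj (· < L) (e p * v ^ k) * x - proj (· < L) (e p * v ^ k * x)) * v ^ r) := by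
          rw [mul_smul_comm, mul_smul_comm, map_smul, ← smul_sub, smul_mul_assoc]
        rw [this]; exact hx.smul c
    have h2 : e p * v ^ (k + 1 + r) - proj (· < L) (e p * v ^ (k + 1)) * v ^ r =
        (e p * v ^ (k + (r + 1)) - proj (· < L) (e p * v ^ k) * v ^ (r + 1)) +
        (proj (· < L) (e p * v ^ k) * v - proj (· < L) (e p * v ^ k * v)) * v ^ r := by
      rw [show k + 1 + r = k + (r + 1) by ring, pow_succ' v r, sub_mul, pow_succ v k,
        mul_assoc (proj (· < L) (e p * v ^ k)) v, mul_assoc (e p) (v ^ k) v]
      abel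
    rw [h2]
    exact h1.add (key v hv)

/-- After any word a high power of `v` is dead. -/
theorem nil_word {L D : ℕ} {Φ : A F →ₗ[F] A F} (h : Block L Φ) (hDL : D ≤ L) {v : A F}
    (hv : v ∈ V F D) (hnil : NilCond L D Φ v) (N : ℕ) :
    ∀ p : List Bool, p.length ≤ N → RDead Φ (e p * v ^ (L + L)) := by
  induction N with
  | zero =>
    intro p hp
    have hp' : p.length < L := lt_of_le_of_lt hp h.pos
    have h1 := nil_aux2 h hDL hv hnil p hp' L L le_rfl
    rwa [proj_lt_eq_zero hv p L le_rfl, zero_mul, sub_zero] at h1
  | succ N ih =>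
    intro p hp
    by_cases hp' : p.length < L
    · have h1 := nil_aux2 h hDL hv hnil p hp' L L le_rfl
      rwa [proj_lt_eq_zero hv p L le_rfl, zero_mul, sub_zero] at h1
    · have hL := h.pos
      have h1 : (p.take L).length = L := by rw [List.length_take]; omega
      have h2 : (p.drop L).length ≤ N := by rw [List.length_drop]; omega
      rw [← List.take_append_drop L p, e_append, mul_assoc]
      exact h.rdead_mul (e_mem_part h1) (ih _ h2)

/-- **Nil lemma.** Under the nil condition the power `v ^ (2 L)` is in the ideal of `Φ`. -/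
theorem dead_pow {L D : ℕ} {Φ : A F →ₗ[F] A F} (h : Block L Φ) (hDL : D ≤ L) {v : A F}
    (hv : v ∈ V F D) (hnil : NilCond L D Φ v) : Dead Φ (v ^ (L + L)) := by
  intro a y
  refine A_induction (P := fun a => Φ (a * v ^ (L + L) * y) = 0) a ?_ ?_ ?_ ?_
  · intro p
    exact nil_word h hDL hv hnil p.length p le_rfl y
  · simp
  · intro x z hx hz
    rw [add_mul, add_mul, map_add, hx, hz, add_zero]
  · intro c x hx
    rw [smul_mul_assoc, smul_mul_assoc, map_smul, hx, smul_zero]

end Pool.Agent.helper7.Nil
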