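import Pool.Agent.helper7.Nil.Block

set_option autoImplicit false

/-!
# The inductive step: dimension count and choice of the next block map
-/

noncomputable section

namespace Pool.Agent.helper7.Nil

open Submodule

universe u

variable {F : Type u} [Field F]

/-- Powers of a generic linear combination. -/
theorem power_expand {ι : Type} [Fintype ι] [DecidableEq ι] (u : ι → A F) (l : ℕ) :
    ∃ g : (ι → Fin (l + 1)) → A F, ∀ c : ι → F,
      (∑ i, c i • u i) ^ l = ∑ μ, (∏ i, c i ^ (μ i : ℕ)) • g μ := by
  induction l with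
  | zero =>
    refine ⟨fun _ => 1, fun c => ?_⟩
    rw [pow_zero, Finset.sum_eq_single (fun _ => 0)]
    · simp
    · intro μ _ hμ
      exact absurd (funext fun i => Fin.ext (by simp)) hμ
    · intro h
      exact absurd (Finset.mem_univ _) h
  | succ l ih =>
    obtain ⟨g, hg⟩ := ih
    let T : (ι → Fin (l + 1)) × ι → (ι → Fin (l + 2)) := fun x i =>
      if i = x.2 then (x.1 i).succ else (x.1 i).castSucc
    have hT : ∀ (c : ι → F) (x : (ι → Fin (l + 1)) × ι),
        ∏ i, c i ^ (T x i : ℕ) = (∏ i, c i ^ (x.1 i : ℕ)) * c x.2 := by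
      intro c x
      have h1 : ∀ i, c i ^ (T x i : ℕ) = c i ^ (x.1 i : ℕ) * (if i = x.2 then c x.2 else 1) := by
        intro i
        by_cases h : i = x.2
        · have h' : T x i = (x.1 i).succ := if_pos h
          rw [h', if_pos h, Fin.val_succ, pow_succ, h]
        · have h' : T x i = (x.1 i).castSucc := if_neg h
          rw [h', if_neg h, Fin.val_castSucc, mul_one]
      simp only [h1, Finset.prod_mul_distrib]
      congr 1
      rw [Finset.prod_ite_eq' Finset.univ x.2 (fun _ => c x.2)]
      simp
    refine ⟨fun ν => ∑ x ∈ Finset.univ.filter (fun x => T x = ν), g x.1 * u x.2, fun c => ?_⟩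
    rw [pow_succ, hg, Finset.sum_mul_sum, ← Finset.sum_product']
    have h2 : ∀ x : (ι → Fin (l + 1)) × ι,
        ((∏ i, c i ^ (x.1 i : ℕ)) • g x.1) * (c x.2 • u x.2) =
          (∏ i, c i ^ (T x i : ℕ)) • (g x.1 * u x.2) := by
      intro x
      rw [smul_mul_smul_comm, hT]
    rw [Finset.sum_congr rfl fun x _ => h2 x, Finset.univ_product_univ]
    rw [← Finset.sum_fiberwise (Finset.univ : Finset ((ι → Fin (l + 1)) × ι)) T]
    refine Finset.sum_congr rfl fun ν _ => ?_
    rw [Finset.smul_sum]
    refine Finset.sum_congr rfl fun x hx => ?_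
    rw [(Finset.mem_filter.1 hx).2]

/-- The span of the `l`-th powers of the elements of a finite-dimensional space has polynomial
dimension. -/
theorem power_span {ι : Type} [Fintype ι] (u : ι → A F) (l : ℕ) :
    ∃ G : Finset (A F), G.card ≤ (l + 1) ^ Fintype.card ι ∧
      ∀ v ∈ span F (Set.range u), v ^ l ∈ span F (G : Set (A F)) := by
  classical
  obtain ⟨g, hg⟩ := power_expand u l
  refine ⟨Finset.univ.image g, ?_, ?_⟩
  · refine Finset.card_image_le.trans ?_
    rw [Finset.card_univ, Fintype.card_fun, Fintype.card_fin]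
  · intro v hv
    obtain ⟨c, rfl⟩ := (mem_span_range_iff_exists_fun F).1 hv
    rw [hg]
    refine sum_mem fun μ _ => smul_mem _ _ (subset_span ?_)
    exact Finset.mem_coe.2 (Finset.mem_image_of_mem g (Finset.mem_univ μ))

/-- Exponentials beat polynomials. -/
theorem growth (C k a : ℕ) : ∃ m, a ≤ m ∧ C * (m + 1) ^ k < 2 ^ m := by
  have h1 := isLittleO_pow_const_const_pow_of_one_lt (R := ℝ) k (r := 2) one_lt_two
  have hC : (0 : ℝ) < (1 : ℝ) / (2 * (C + 1) * 2 ^ k) := by positivity
  have h2 := h1.bound hC
  rw [Filter.eventually_atTop] at h2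
  obtain ⟨N, hN⟩ := h2
  refine ⟨max (max a N) 1, ?_, ?_⟩
  · exact le_max_of_le_left (le_max_left _ _)
  · set m := max (max a N) 1 with hm
    have hm1 : 1 ≤ m := le_max_right _ _
    have hmN : N ≤ m := le_max_of_le_left (le_max_right _ _)
    have h3 := hN m hmN
    rw [Real.norm_of_nonneg (by positivity), Real.norm_of_nonneg (by positivity)] at h3
    have h4 : ((m : ℝ) + 1) ^ k ≤ (2 * m) ^ k := by
      have : (1 : ℝ) ≤ m := by exact_mod_cast hm1
      gcongr
      linarith
    have h5 : (C : ℝ) * (m + 1) ^ k < 2 ^ m := by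
      calc (C : ℝ) * (m + 1) ^ k ≤ C * (2 * m) ^ k := by gcongr
        _ = C * 2 ^ k * m ^ k := by rw [mul_pow]; ring
        _ ≤ C * 2 ^ k * (1 / (2 * (C + 1) * 2 ^ k) * 2 ^ m) := by gcongr
        _ = (C / (C + 1)) * (1 / 2) * 2 ^ m := by field_simp
        _ < 1 * 2 ^ m := by
          gcongr
          have h6 : (C : ℝ) / (C + 1) ≤ 1 := by
            rw [div_le_one (by positivity)]; linarith
          linarith
        _ = 2 ^ m := one_mul _
    exact_mod_cast h5

/-- If a subspace has dimension less than `2 ^ n`, some word `r ++ w` with `|w| = n` is not in it. -/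
theorem exists_word_notMem (K : Submodule F (A F)) [FiniteDimensional F K] (r : List Bool) (n : ℕ)
    (hK : Module.finrank F K < 2 ^ n) :
    ∃ w : List Bool, w.length = n ∧ (e (r ++ w) : A F) ∉ K := by
  by_contra hcon
  push Not at hcon
  let f : List.Vector Bool n → List Bool := fun w => r ++ w.1
  have hf : Function.Injective f := by
    intro a b h
    exact Subtype.ext (List.append_cancel_left h)
  have hli : LinearIndependent F (fun w => (e (f w) : A F)) :=
    e_linearIndependent.comp f hf
  have h1 := finrank_span_eq_card hli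
  have h2 : span F (Set.range fun w => (e (f w) : A F)) ≤ K := by
    rw [span_le]
    rintro _ ⟨w, rfl⟩
    exact hcon w.1 w.2
  have h3 := Submodule.finrank_mono h2
  rw [h1, card_vector, Fintype.card_bool] at h3
  omega

/-- The choice of the values of the next block map. -/
theorem exists_sigma (K : Submodule F (A F)) [FiniteDimensional F K] (R m : ℕ) (hR : 1 ≤ R)
    (hRm : R ≤ m) (hK : Module.finrank F K < 2 ^ (m - R)) :
    ∃ (p q : List Bool) (σ : A F →ₗ[F] A F), p.length = m - R ∧ q.length = m ∧
      (∀ a, σ a ∈ part F (· = 1)) ∧ (∀ a ∈ K, σ a = 0) ∧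
      σ (e (List.replicate R false ++ p)) = e [false] ∧ σ (e q) = e [true] := by
  obtain ⟨p, hp, hpK⟩ := exists_word_notMem K (List.replicate R false) (m - R) hK
  set x : A F := e (List.replicate R false ++ p) with hx
  have hfin : Module.finrank F (K ⊔ span F {x} : Submodule F (A F)) < 2 ^ m := by
    have h1 := Submodule.finrank_add_le_finrank_add_finrank K (span F {x})
    have h2 : Module.finrank F (span F ({x} : Set (A F))) ≤ 1 := by
      have := finrank_span_finset_le_card (R := F) ({x} : Finset (A F))
      rw [Finset.coe_singleton, Finset.card_singleton] at this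
      exact this
    have h3 : 2 ^ (m - R) ≤ 2 ^ (m - 1) := Nat.pow_le_pow_right two_pos (by omega)
    have h4 : 2 ^ m = 2 * 2 ^ (m - 1) := by
      rw [← pow_succ']; congr 1; omega
    have h5 : 1 ≤ 2 ^ (m - 1) := Nat.one_le_two_pow
    omega
  obtain ⟨q, hq, hqK⟩ := exists_word_notMem (K ⊔ span F {x}) [] m hfin
  rw [List.nil_append] at hqK
  obtain ⟨f, hf, hfK⟩ := Submodule.exists_le_ker_of_notMem hpK
  obtain ⟨g, hg, hgK⟩ := Submodule.exists_le_ker_of_notMem hqK
  have hgx : g x = 0 := hgK (mem_sup_right (mem_span_singleton_self x))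
  have hgK' : ∀ a ∈ K, g a = 0 := fun a ha => hgK (mem_sup_left ha)
  -- normalised functionals
  let f' : A F →ₗ[F] F := (f x)⁻¹ • f
  let g' : A F →ₗ[F] F := (g (e q))⁻¹ • g
  have hf'x : f' x = 1 := by simp [f', inv_mul_cancel₀ hf]
  have hf'K : ∀ a ∈ K, f' a = 0 := by
    intro a ha
    have : f a = 0 := hfK ha
    simp [f', this]
  have hg'x : g' x = 0 := by simp [g', hgx]
  have hg'K : ∀ a ∈ K, g' a = 0 := by
    intro a ha
    simp [g', hgK' a ha]
  have hg'q : g' (e q) = 1 := by simp [g', inv_mul_cancel₀ hg]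
  let σ : A F →ₗ[F] A F := (f' - (f' (e q)) • g').smulRight (e [false]) + g'.smulRight (e [true])
  have hσ : ∀ a, σ a = (f' a - f' (e q) * g' a) • e [false] + g' a • e [true] := by
    intro a; simp [σ]
  refine ⟨p, q, σ, hp, hq, ?_, ?_, ?_, ?_⟩
  · intro a
    rw [hσ]
    exact add_mem (smul_mem _ _ (e_mem_part rfl)) (smul_mem _ _ (e_mem_part rfl))
  · intro a ha
    rw [hσ, hf'K a ha, hg'K a ha]; simp
  · rw [hσ, hf'x, hg'x]; simp
  · rw [hσ, hg'q]; simp

/-- A stage of the construction: a block map together with words representing the two letters. -/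
structure Stage (F : Type u) [Field F] where
  L : ℕ
  Φ : A F →ₗ[F] A F
  X : Bool → List Bool
  block : Block L Φ
  len : ∀ c, (X c).length = L
  val : ∀ c, Φ (e (X c)) = e [c]

/-- Substituting the words `X c` for the letters. -/
theorem Stage.subst (S : Stage F) (w : List Bool) : S.Φ (e (w.flatMap S.X)) = e w := by
  induction w with
  | nil =>
    rw [List.flatMap_nil, e_nil]
    have := S.block.one
    rwa [e_nil] at this
  | cons c w ih =>
    rw [List.flatMap_cons, S.block.mul _ _ (S.len c), S.val, ih, ← e_append]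
    rfl

theorem Stage.subst_len (S : Stage F) (w : List Bool) :
    (w.flatMap S.X).length = w.length * S.L := by
  induction w with
  | nil => simp
  | cons c w ih =>
    rw [List.flatMap_cons, List.length_append, S.len, ih, List.length_cons]
    ring

/-- The initial stage. -/
def Stage.init : Stage F where
  L := 1
  Φ := LinearMap.id
  X := fun c => [c]
  block := Block.id
  len := fun _ => rfl
  val := fun _ => rfl

/-- **Step lemma.** -/
theorem step (S : Stage F) (D R : ℕ) (hR : 1 ≤ R) : ∃ S' : Stage F,
    (∃ Ψ : A F →ₗ[F] A F, S'.Φ = Ψ ∘ₗ S.Φ) ∧ (∀ v ∈ V F D, ∃ n, Dead S'.Φ (v ^ n)) ∧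
      ∃ t, S'.X false = (List.replicate R (S.X false)).flatten ++ t := by
  classical
  have hL := S.block.pos
  -- finiteness
  have hfinD : {w : List Bool | w.length ≤ D}.Finite := List.finite_length_le Bool D
  let SD : Finset (List Bool) := hfinD.toFinset
  have hSD : ∀ w : List Bool, w.length ≤ D → w ∈ SD := fun w hw => hfinD.mem_toFinset.2 hw
  let U : Finset (List Bool) := SD.filter (fun w => 1 ≤ w.length)
  have hU : ∀ w : List Bool, 1 ≤ w.length ∧ w.length ≤ D → w ∈ U := fun w hw =>
    Finset.mem_filter.2 ⟨hSD w hw.2, hw.1⟩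
  have hV : V F D ≤ span F (Set.range fun w : U => (e w.1 : A F)) := by
    refine span_le.2 ?_
    rintro _ ⟨w, hw, rfl⟩
    exact subset_span ⟨⟨w, hU w hw⟩, rfl⟩
  choose G hGcard hG using fun l => power_span (fun w : U => (e w.1 : A F)) l
  set N := Fintype.card U with hN
  obtain ⟨m, hm, hgrow⟩ := growth (SD.card * SD.card * (S.L + 1) ^ (N + 1) * 2 ^ R) (N + 1)
    (max R D + 1)
  have hRm : R ≤ m := by have := le_max_left R D; omega
  have hDm : D ≤ m := by have := le_max_right R D; omega
  have hm0 : 0 < m := by omega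
  have hDL : D ≤ m * S.L := hDm.trans (Nat.le_mul_of_pos_right m hL)
  let M := m * S.L
  let T : Finset (A F) := ((SD ×ˢ SD) ×ˢ Finset.range (M + 1)).biUnion
    (fun x => (G x.2).image (fun g => S.Φ (proj (· = M) (e x.1.1 * g * e x.1.2))))
  have hTcard : T.card ≤ SD.card * SD.card * (M + 1) ^ (N + 1) := by
    have h1 : T.card ≤ ((SD ×ˢ SD) ×ˢ Finset.range (M + 1)).card * (M + 1) ^ N := by
      refine Finset.card_biUnion_le_card_mul _ _ _ ?_
      intro x hx
      refine Finset.card_image_le.trans ((hGcard x.2).trans ?_)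
      have h2 : x.2 ∈ Finset.range (M + 1) := (Finset.mem_product.1 hx).2
      rw [Finset.mem_range] at h2
      exact Nat.pow_le_pow_left (by omega) _
    refine h1.trans (le_of_eq ?_)
    rw [Finset.card_product, Finset.card_product, Finset.card_range]
    ring
  let K : Submodule F (A F) := span F (T : Set (A F))
  haveI : FiniteDimensional F K := FiniteDimensional.span_finset F T
  have hK : Module.finrank F K < 2 ^ (m - R) := by
    have h1 : Module.finrank F K ≤ T.card := finrank_span_finset_le_card T
    have h2 : M + 1 ≤ (m + 1) * (S.L + 1) := by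
      simp only [M]; nlinarith
    have h3 : T.card * 2 ^ R < 2 ^ (m - R) * 2 ^ R := by
      calc T.card * 2 ^ R ≤ (SD.card * SD.card * (M + 1) ^ (N + 1)) * 2 ^ R := by gcongr
        _ ≤ (SD.card * SD.card * ((m + 1) * (S.L + 1)) ^ (N + 1)) * 2 ^ R := by gcongr
        _ = SD.card * SD.card * (S.L + 1) ^ (N + 1) * 2 ^ R * (m + 1) ^ (N + 1) := by
          rw [mul_pow]; ring
        _ < 2 ^ m := hgrow
        _ = 2 ^ (m - R) * 2 ^ R := by rw [← pow_add]; congr 1; omega
    have h4 : T.card < 2 ^ (m - R) := lt_of_mul_lt_mul_right h3 (Nat.zero_le _)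
    omega
  obtain ⟨p, q, σ, hp, hq, hσ1, hσK, hσp, hσq⟩ := exists_sigma K R m hR hRm hK
  obtain ⟨Ψ, hΨ, hΨσ⟩ := exists_block m hm0 (fun w => σ (e w)) (fun w _ => hσ1 _)
  let Y : Bool → List Bool := fun c => if c then q else List.replicate R false ++ p
  have hYlen : ∀ c, (Y c).length = m := by
    intro c
    cases c
    · change (List.replicate R false ++ p).length = m
      rw [List.length_append, List.length_replicate, hp]; omega
    · exact hq
  have hYval : ∀ c, Ψ (e (Y c)) = e [c] := by
    intro c
    rw [hΨσ _ (hYlen c)]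
    cases c
    · exact hσp
    · exact hσq
  have hΨpart : ∀ a ∈ part F (· = m), Ψ a = σ a := by
    intro a ha
    refine part_induction (Q := fun a => Ψ a = σ a) ha ?_ ?_ ?_ ?_
    · intro w hw; exact hΨσ w hw
    · rw [map_zero, map_zero]
    · intro x y hx hy; rw [map_add, map_add, hx, hy]
    · intro c x hx; rw [map_smul, map_smul, hx]
  have hblock := S.block.comp hΨ
  let S' : Stage F :=
    { L := m * S.L
      Φ := Ψ ∘ₗ S.Φ
      X := fun c => (Y c).flatMap S.X
      block := hblock
      len := fun c => by rw [S.subst_len, hYlen]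
      val := fun c => by rw [LinearMap.comp_apply, S.subst, hYval] }
  refine ⟨S', ⟨Ψ, rfl⟩, ?_, ?_⟩
  · intro v hv
    refine ⟨_, dead_pow hblock hDL hv ?_⟩
    intro s t hs ht l
    by_cases hl : l ≤ M
    · have h1 : S.Φ (proj (· = M) (e s * v ^ l * e t)) ∈ K := by
        have h2 := hG l v (hV hv)
        refine Submodule.span_induction (p := fun x _ =>
          S.Φ (proj (· = M) (e s * x * e t)) ∈ K) ?_ ?_ ?_ ?_ h2
        · intro x hx
          refine subset_span (Finset.mem_coe.2 (Finset.mem_biUnion.2 ⟨((s, t), l), ?_, ?_⟩))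
          · exact Finset.mem_product.2 ⟨Finset.mem_product.2 ⟨hSD s hs, hSD t ht⟩,
              Finset.mem_range.2 (by omega)⟩
          · exact Finset.mem_image_of_mem _ (Finset.mem_coe.1 hx)
        · simp
        · intro x y _ _ hx hy
          rw [mul_add, add_mul, map_add, map_add]
          exact add_mem hx hy
        · intro c x _ hx
          rw [mul_smul_comm, smul_mul_assoc, map_smul, map_smul]
          exact smul_mem _ _ hx
      have h3 : S.Φ (proj (· = M) (e s * v ^ l * e t)) ∈ part F (· = m) :=
        S.block.map_part (proj_mem_part _ _)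
      change Ψ (S.Φ (proj (· = M) (e s * v ^ l * e t))) = 0
      rw [hΨpart _ h3]
      exact hσK _ h1
    · have h1 : proj (· = M) (e s * v ^ l * e t) = 0 := by
        refine proj_eq_zero (Q := fun n => l ≤ n) (fun n hn => by omega) ?_
        have h2 : (e s : A F) ∈ part F (fun n => 0 ≤ n) := e_mem_part (Nat.zero_le _)
        have h3 : (e t : A F) ∈ part F (fun n => 0 ≤ n) := e_mem_part (Nat.zero_le _)
        have h4 : e s * v ^ l ∈ part F (fun n => l ≤ n) :=
          mul_mem_part (fun a b _ hb => le_add_left hb) h2 (pow_mem_part hv l)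
        exact mul_mem_part (fun a b ha _ => le_add_right ha) h4 h3
      change Ψ (S.Φ (proj (· = M) (e s * v ^ l * e t))) = 0
      rw [h1, map_zero, map_zero]
  · refine ⟨p.flatMap S.X, ?_⟩
    change (List.replicate R false ++ p).flatMap S.X = _
    rw [List.flatMap_append, List.flatMap_def, List.map_replicate]

end Pool.Agent.helper7.Nil
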