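import Mathlib

set_option autoImplicit false

/-!
# The free algebra on two letters: words, degrees, truncations, block maps
-/

noncomputable section

namespace Pool.Agent.helper7.Nil

open Submodule

universe u

variable (F : Type u) [Field F]

/-- The free associative unital algebra on two letters. -/
abbrev A : Type u := MonoidAlgebra F (FreeMonoid Bool)

/-- The basis of words. -/
noncomputable def wb : Module.Basis (List Bool) F (A F) :=
  MonoidAlgebra.basis (FreeMonoid Bool) F

variable {F}

/-- A word as an element of the free algebra. -/
noncomputable def e (w : List Bool) : A F := wb F w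

theorem e_eq (w : List Bool) : (e w : A F) = MonoidAlgebra.single (FreeMonoid.ofList w) 1 := by
  rw [e, wb]
  rfl

theorem e_nil : (e [] : A F) = 1 := by
  rw [e_eq]; rfl

theorem e_append (u v : List Bool) : (e (u ++ v) : A F) = e u * e v := by
  rw [e_eq, e_eq, e_eq, MonoidAlgebra.single_mul_single, mul_one]; rfl

theorem span_e : span F (Set.range (e : List Bool → A F)) = ⊤ := (wb F).span_eq

theorem e_ne_zero (w : List Bool) : (e w : A F) ≠ 0 := (wb F).ne_zero w

theorem e_linearIndependent : LinearIndependent F (e : List Bool → A F) :=
  (wb F).linearIndependent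

/-- Two linear maps that agree on words are equal. -/
theorem lin_ext {M : Type*} [AddCommMonoid M] [Module F M] {f g : A F →ₗ[F] M}
    (h : ∀ w, f (e w) = g (e w)) : f = g :=
  (wb F).ext h

/-- Induction on elements of the free algebra. -/
theorem A_induction {P : A F → Prop} (a : A F) (word : ∀ w, P (e w)) (zero : P 0)
    (add : ∀ x y, P x → P y → P (x + y)) (smul : ∀ (c : F) x, P x → P (c • x)) : P a := by
  have ha : a ∈ span F (Set.range (e : List Bool → A F)) := by rw [span_e]; trivial
  induction ha using Submodule.span_induction with
  | mem x hx => obtain ⟨w, rfl⟩ := hx; exact word w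
  | zero => exact zero
  | add x y _ _ hx hy => exact add x y hx hy
  | smul c x _ hx => exact smul c x hx

/-- Projection on the words whose length satisfies `P`. -/
noncomputable def proj (P : ℕ → Prop) [DecidablePred P] : A F →ₗ[F] A F :=
  (wb F).constr F (fun w => if P w.length then e w else 0)

theorem proj_e (P : ℕ → Prop) [DecidablePred P] (w : List Bool) :
    proj P (e w : A F) = if P w.length then e w else 0 := by
  rw [proj, e, Module.Basis.constr_basis]; rfl

/-- The span of the words whose length satisfies `P`. -/
def part (F : Type u) [Field F] (P : ℕ → Prop) : Submodule F (A F) :=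
  span F {x | ∃ w : List Bool, P w.length ∧ x = e w}

theorem e_mem_part {P : ℕ → Prop} {w : List Bool} (h : P w.length) : (e w : A F) ∈ part F P :=
  subset_span ⟨w, h, rfl⟩

theorem part_mono {P Q : ℕ → Prop} (h : ∀ n, P n → Q n) : part F P ≤ part F Q :=
  span_mono (by rintro _ ⟨w, hw, rfl⟩; exact ⟨w, h _ hw, rfl⟩)

theorem part_induction {P : ℕ → Prop} {Q : A F → Prop} {a : A F} (ha : a ∈ part F P)
    (word : ∀ w : List Bool, P w.length → Q (e w)) (zero : Q 0)
    (add : ∀ x y, Q x → Q y → Q (x + y)) (smul : ∀ (c : F) x, Q x → Q (c • x)) : Q a := by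
  induction ha using Submodule.span_induction with
  | mem x hx => obtain ⟨w, hw, rfl⟩ := hx; exact word w hw
  | zero => exact zero
  | add x y _ _ hx hy => exact add x y hx hy
  | smul c x _ hx => exact smul c x hx

theorem mul_mem_part {P Q R : ℕ → Prop} (h : ∀ m n, P m → Q n → R (m + n)) {a b : A F}
    (ha : a ∈ part F P) (hb : b ∈ part F Q) : a * b ∈ part F R := by
  refine part_induction (Q := fun a => a * b ∈ part F R) ha ?_ ?_ ?_ ?_
  · intro w hw
    refine part_induction (Q := fun b => e w * b ∈ part F R) hb ?_ ?_ ?_ ?_
    · intro w' hw'
      rw [← e_append]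
      refine e_mem_part ?_
      rw [List.length_append]
      exact h _ _ hw hw'
    · rw [mul_zero]; exact zero_mem _
    · intro x y hx hy; rw [mul_add]; exact add_mem hx hy
    · intro c x hx; rw [mul_smul_comm]; exact smul_mem _ c hx
  · rw [zero_mul]; exact zero_mem _
  · intro x y hx hy; rw [add_mul]; exact add_mem hx hy
  · intro c x hx; rw [smul_mul_assoc]; exact smul_mem _ c hx

theorem proj_mem_part (P : ℕ → Prop) [DecidablePred P] (a : A F) : proj P a ∈ part F P := by
  refine A_induction (P := fun a => proj P a ∈ part F P) a ?_ ?_ ?_ ?_
  · intro w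
    rw [proj_e]
    split_ifs with h
    · exact e_mem_part h
    · exact zero_mem _
  · rw [map_zero]; exact zero_mem _
  · intro x y hx hy; rw [map_add]; exact add_mem hx hy
  · intro c x hx; rw [map_smul]; exact smul_mem _ c hx

theorem proj_eq_zero {P Q : ℕ → Prop} [DecidablePred P] (h : ∀ n, Q n → ¬ P n) {a : A F}
    (ha : a ∈ part F Q) : proj P a = 0 := by
  refine part_induction (Q := fun a => proj P a = 0) ha ?_ ?_ ?_ ?_
  · intro w hw
    rw [proj_e, if_neg (h _ hw)]
  · rw [map_zero]
  · intro x y hx hy; rw [map_add, hx, hy, add_zero]
  · intro c x hx; rw [map_smul, hx, smul_zero]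

/-- The span of the words of length between `1` and `D`. -/
abbrev V (F : Type u) [Field F] (D : ℕ) : Submodule F (A F) := part F (fun n => 1 ≤ n ∧ n ≤ D)

theorem pow_mem_part {D : ℕ} {v : A F} (hv : v ∈ V F D) (n : ℕ) :
    v ^ n ∈ part F (fun l => n ≤ l) := by
  induction n with
  | zero =>
    rw [pow_zero, ← e_nil]
    exact e_mem_part (Nat.zero_le _)
  | succ n ih =>
    rw [pow_succ]
    exact mul_mem_part (fun a b ha hb => Nat.add_le_add ha hb.1) ih hv

/-- The crossing identity. -/
theorem crossing (L : ℕ) (a : A F) (u : List Bool) :
    proj (· < L) a * e u = proj (· < L) (a * e u) +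
      ∑ i ∈ Finset.range u.length,
        proj (· = L) (a * e (u.take (i + 1))) * e (u.drop (i + 1)) := by
  refine A_induction (P := fun a => proj (· < L) a * e u = proj (· < L) (a * e u) +
      ∑ i ∈ Finset.range u.length,
        proj (· = L) (a * e (u.take (i + 1))) * e (u.drop (i + 1))) a ?_ ?_ ?_ ?_
  · intro w
    rw [proj_e, ← e_append, proj_e, List.length_append]
    have hterm : ∀ i, proj (· = L) (e w * e (u.take (i + 1)) : A F) * e (u.drop (i + 1)) =
        if (w.length + (u.take (i + 1)).length = L) then e (w ++ u) else 0 := by
      intro i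
      rw [← e_append, proj_e, List.length_append]
      split_ifs with h
      · rw [← e_append, List.append_assoc, List.take_append_drop]
      · rw [zero_mul]
    simp only [hterm]
    by_cases h1 : w.length < L
    · by_cases h2 : w.length + u.length < L
      · rw [if_pos h1, if_pos h2, Finset.sum_eq_zero, add_zero, e_append]
        intro i hi
        rw [if_neg]
        rw [List.length_take]
        omega
      · rw [if_pos h1, if_neg h2, zero_add, Finset.sum_eq_single (L - w.length - 1)]
        · rw [if_pos, e_append]
          rw [List.length_take]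
          omega
        · intro i hi hne
          rw [Finset.mem_range] at hi
          rw [if_neg]
          rw [List.length_take]
          omega
        · intro h
          rw [Finset.mem_range] at h
          omega
    · rw [if_neg h1, if_neg (by omega), zero_mul, Finset.sum_eq_zero, add_zero]
      intro i hi
      rw [Finset.mem_range] at hi
      rw [if_neg]
      rw [List.length_take]
      omega
  · simp
  · intro x y hx hy
    simp only [map_add, add_mul, hx, hy, Finset.sum_add_distrib]
    abel
  · intro c x hx
    simp only [map_smul, smul_mul_assoc, hx, smul_add, Finset.smul_sum]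

end Pool.Agent.helper7.Nil
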